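import Pool.Agent.helper51.QS.SpecB

/-!
# Row qs:ETJ (MP_74cfa5_ag): Jacobian determinants in codimension one
-/

set_option autoImplicit false

namespace Pool.Agent.QS

open Pool.Agent.PC MvPolynomial

universe u

theorem ETJ_one {A K : Type u} [CommRing A] [Field K] [Algebra A K] (Q : Ideal A)
    (hQ : Q.IsPrime) : ∃ x s : A, s ∉ Q ∧ (1 : K) = algebraMap A K x / algebraMap A K s :=
  ⟨1, 1, fun h => hQ.ne_top (Q.eq_top_of_isUnit_mem h isUnit_one), by rw [map_one, div_one]⟩

theorem ETJ_prod {A K : Type u} [CommRing A] [Field K] [Algebra A K] (Q : Ideal A)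
    (hQ : Q.IsPrime) {ι : Type} (t : Finset ι) (o : ι → K)
    (ho : ∀ i ∈ t, ∃ x s : A, s ∉ Q ∧ o i = algebraMap A K x / algebraMap A K s) :
    ∃ x s : A, s ∉ Q ∧ ∏ i ∈ t, o i = algebraMap A K x / algebraMap A K s := by
  classical
  induction t using Finset.induction_on with
  | empty =>
    rw [Finset.prod_empty]
    exact ETJ_one Q hQ
  | insert a t ha ih =>
    obtain ⟨x, s, hs, hx⟩ := ho a (Finset.mem_insert_self a t)
    obtain ⟨x', s', hs', hx'⟩ := ih fun i hi => ho i (Finset.mem_insert_of_mem hi)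
    refine ⟨x * x', s * s', fun h => ?_, ?_⟩
    · rcases hQ.mem_or_mem h with h | h
      · exact hs h
      · exact hs' h
    · rw [Finset.prod_insert ha, hx, hx', map_mul, map_mul, div_mul_div_comm]

/-- Row ETJ. -/
theorem ETJ (hSPN : SPN_stmt.{u}) (hETC : ETC_stmt.{u}) : ETJ_stmt.{u} := by
  classical
  intro k R A K G _ _ _ _ _ _ _ _ _ _ _ _ _ _ _ _ _ _ Q hQ hG n D y
  obtain ⟨b, hb⟩ := hSPN k A G Q hG
  have hE := fun i : Fin n => hETC k R A K G Q hQ b hb (y i)
  choose N o r ho hD using hE
  have h1 : JJ D (fun i => algebraMap A K (y i))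
      = (Matrix.detRowAlternating (R := K) (n := Fin n)).toMultilinearMap
        (fun i => ∑ l : Fin (N i), fun j => o i l * D j (algebraMap A K (algebraMap R A (r i l)))) := by
    have h2 : (Matrix.of fun i j => D j (algebraMap A K (y i)))
        = (fun i => ∑ l : Fin (N i), fun j => o i l * D j (algebraMap A K (algebraMap R A (r i l)))) := by
      funext i j
      rw [Finset.sum_apply, Matrix.of_apply]
      exact hD i (D j)
    unfold JJ
    rw [h2]
    rfl
  rw [h1, MultilinearMap.map_sum]
  refine sum_mem fun e _ => AddSubgroup.subset_closure ?_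
  refine ⟨∏ i, o i (e i), ETJ_prod Q hQ Finset.univ (fun i => o i (e i)) fun i _ => ho i (e i),
    fun i => r i (e i), ?_⟩
  have h3 := Matrix.det_mul_column (fun i => o i (e i))
    (Matrix.of fun i j => D j (algebraMap A K (algebraMap R A (r i (e i)))))
  exact h3

end Pool.Agent.QS
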